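import Pool.Agent.P.MP_0c3bbf_an.Defs

namespace Pool.Agent.P.MP_0c3bbf_an

open Filter Topology

theorem exists_ulim (U : Ultrafilter ℕ) (a : ℕ → ℝ) (C : ℝ) (h : ∀ n, |a n| ≤ C) :
    ∃ l, Tendsto a U (𝓝 l) := by
  obtain ⟨l, -, hl⟩ := (isCompact_Icc (a := -C) (b := C)).ultrafilter_le_nhds (U.map a) (by
    rw [Ultrafilter.coe_map, le_principal_iff, mem_map]
    exact Eventually.of_forall fun n => abs_le.mp (h n))
  exact ⟨l, hl⟩

theorem exists_ulim_bilin (U : Ultrafilter ℕ) {E : Type*} [AddCommGroup E] [Module ℝ E]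
    (B : ℕ → E →ₗ[ℝ] E →ₗ[ℝ] ℝ) (h : ∀ x y, ∃ C, ∀ n, |B n x y| ≤ C) :
    ∃ B' : E →ₗ[ℝ] E →ₗ[ℝ] ℝ, ∀ x y, Tendsto (fun n => B n x y) U (𝓝 (B' x y)) := by
  have : ∀ x y, ∃ l, Tendsto (fun n => B n x y) U (𝓝 l) := fun x y => by
    obtain ⟨C, hC⟩ := h x y
    exact exists_ulim U _ C hC
  choose l hl using this
  refine ⟨LinearMap.mk₂ ℝ l ?_ ?_ ?_ ?_, hl⟩
  · intro x y z
    refine tendsto_nhds_unique (hl (x + y) z) ?_
    simpa using (hl x z).add (hl y z)
  · intro c x z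
    refine tendsto_nhds_unique (hl (c • x) z) ?_
    simpa using (hl x z).const_mul c
  · intro x y z
    refine tendsto_nhds_unique (hl x (y + z)) ?_
    simpa using (hl x y).add (hl x z)
  · intro c x z
    refine tendsto_nhds_unique (hl x (c • z)) ?_
    simpa using (hl x z).const_mul c

variable {G : Type} [Group G] [DecidableEq G]

noncomputable def defect (S : Finset G) (t : G) : ℝ :=
  ((symmDiff (S.image fun h => t * h) S).card : ℝ) / (S.card : ℝ)

theorem sum_shift_le (S : Finset G) (t : G) (a : G → ℝ) (C : ℝ) (h : ∀ g, |a g| ≤ C) :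
    |∑ g ∈ S, a (t * g) - ∑ g ∈ S, a g| ≤
      C * ((symmDiff (S.image fun h => t * h) S).card : ℝ) := by
  have h1 : ∑ g ∈ S, a (t * g) = ∑ g ∈ S.image (fun h => t * h), a g := by
    rw [Finset.sum_image]
    intro x _ y _ hxy
    exact mul_left_cancel hxy
  set T := S.image fun h => t * h
  have h2 : ∑ g ∈ T, a g - ∑ g ∈ S, a g = ∑ g ∈ T \ S, a g - ∑ g ∈ S \ T, a g :=
    Finset.sum_sdiff_sub_sum_sdiff.symm
  have h3 : (symmDiff T S).card = (T \ S).card + (S \ T).card := by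
    rw [symmDiff_def, Finset.sup_eq_union, Finset.card_union_of_disjoint disjoint_sdiff_sdiff]
  have h4 : ∀ A : Finset G, |∑ g ∈ A, a g| ≤ C * A.card := by
    intro A
    refine (Finset.abs_sum_le_sum_abs _ _).trans ?_
    refine (Finset.sum_le_card_nsmul _ _ C fun g _ => h g).trans ?_
    rw [nsmul_eq_mul, mul_comm]
  rw [h1, h2, h3]
  refine (abs_sub _ _).trans ?_
  push_cast
  linarith [h4 (T \ S), h4 (S \ T)]

theorem avg_shift_le (S : Finset G) (t : G) (a : G → ℝ) (C : ℝ) (h : ∀ g, |a g| ≤ C) :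
    |(∑ g ∈ S, a (t * g)) / S.card - (∑ g ∈ S, a g) / S.card| ≤ C * defect S t := by
  rw [← sub_div, abs_div, Nat.abs_cast, defect, ← mul_div_assoc]
  exact div_le_div_of_nonneg_right (sum_shift_le S t a C h) (Nat.cast_nonneg _)

theorem abs_avg_le {α : Type*} (S : Finset α) (a : α → ℝ) (C : ℝ) (hC : 0 ≤ C)
    (h : ∀ g, |a g| ≤ C) : |(∑ g ∈ S, a g) / S.card| ≤ C := by
  rcases S.eq_empty_or_nonempty with rfl | hS
  · simpa using hC
  have hpos : (0 : ℝ) < S.card := by exact_mod_cast hS.card_pos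
  rw [abs_div, Nat.abs_cast, div_le_iff₀ hpos]
  refine (Finset.abs_sum_le_sum_abs _ _).trans ?_
  refine (Finset.sum_le_card_nsmul _ _ C fun g _ => h g).trans ?_
  rw [nsmul_eq_mul, mul_comm]

theorem IsFolner.comp {F : ℕ → Finset G} (hF : IsFolner F) {φ : ℕ → ℕ}
    (hφ : Tendsto φ atTop atTop) : IsFolner (fun n => F (φ n)) :=
  ⟨fun n => hF.1 _, fun g => (hF.2 g).comp hφ⟩

theorem IsFolner.defect {F : ℕ → Finset G} (hF : IsFolner F) (t : G) :
    Tendsto (fun n => defect (F n) t) atTop (𝓝 0) := hF.2 t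

end Pool.Agent.P.MP_0c3bbf_an
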