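import Pool.Agent.P.MP_0c3bbf_an.Hilbert

namespace Pool.Agent.P.MP_0c3bbf_an

open Filter Topology
open scoped RealInnerProductSpace

section finite

variable {H : Type} [NormedAddCommGroup H] [InnerProductSpace ℝ H]

theorem sum_inner_sq_le {L : ℕ} (w : Fin L → H) (M η : ℝ) (hη : 0 ≤ η) (hM : ∀ i, ‖w i‖ = M)
    (hw : ∀ i j, i ≠ j → |⟪w i, w j⟫| ≤ η) (e : H) (he : ‖e‖ = 1) :
    ∑ i, ⟪e, w i⟫ ^ 2 ≤ M ^ 2 + η * L := by
  set a : Fin L → ℝ := fun i => ⟪e, w i⟫ with ha
  set S := ∑ i, a i ^ 2 with hS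
  have hS0 : 0 ≤ S := Finset.sum_nonneg fun i _ => sq_nonneg _
  have h1 : S ≤ ‖∑ i, a i • w i‖ := by
    have : S = ⟪e, ∑ i, a i • w i⟫ := by
      rw [inner_sum]
      exact Finset.sum_congr rfl fun i _ => by rw [inner_smul_right, sq]
    rw [this]
    exact (real_inner_le_norm _ _).trans (by rw [he, one_mul])
  have h2 : ‖∑ i, a i • w i‖ ^ 2 ≤ (M ^ 2 + η * L) * S := by
    rw [← real_inner_self_eq_norm_sq, sum_inner]
    simp only [inner_sum, inner_smul_left, inner_smul_right, conj_trivial]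
    have h3 : ∀ i j, a j * (a i * ⟪w i, w j⟫) ≤
        (if i = j then M ^ 2 * a i ^ 2 else 0) + η * (a i ^ 2 + a j ^ 2) / 2 := by
      intro i j
      split_ifs with hij
      · subst hij
        rw [real_inner_self_eq_norm_sq, hM]
        nlinarith [mul_nonneg hη (sq_nonneg (a i))]
      · have h4 := abs_le.mp (hw i j hij)
        nlinarith [mul_nonneg (sub_nonneg.mpr h4.2) (sq_nonneg (a i + a j)),
          mul_nonneg (neg_le_iff_add_nonneg.mp h4.1) (sq_nonneg (a i - a j))]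
    refine (Finset.sum_le_sum fun i _ => Finset.sum_le_sum fun j _ => h3 i j).trans (le_of_eq ?_)
    simp only [Finset.sum_add_distrib, Finset.sum_ite_eq, Finset.mem_univ, if_true,
      ← Finset.sum_div, ← Finset.mul_sum, Finset.sum_const, Finset.card_univ, Fintype.card_fin,
      nsmul_eq_mul, ← hS]
    ring
  rcases eq_or_lt_of_le hS0 with h0 | h0
  · rw [← h0]; positivity
  refine le_of_mul_le_mul_right ?_ h0
  nlinarith [norm_nonneg (∑ i, a i • w i)]

theorem sum_inner_le {L : ℕ} (hL : 0 < L) (V : Submodule ℝ H) [FiniteDimensional ℝ V] {k : ℕ}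
    (hk : Module.finrank ℝ V ≤ k) (y w v : Fin L → H) (M η ε : ℝ) (hη : 0 ≤ η) (hε : 0 ≤ ε)
    (hv : ∀ i, v i ∈ V) (hy : ∀ i, ‖y i‖ ≤ 1) (hM : ∀ i, ‖w i‖ = M)
    (hw : ∀ i j, i ≠ j → |⟪w i, w j⟫| ≤ η) (hyv : ∑ i, ‖y i - v i‖ ^ 2 ≤ L * ε ^ 2) :
    ∑ i, ⟪y i, w i⟫ ≤ L * (ε * M + √(k * (M ^ 2 / L + η))) := by
  have : CompleteSpace V := FiniteDimensional.complete ℝ V
  have hL' : (0 : ℝ) < L := by exact_mod_cast hL
  have hM0 : 0 ≤ M := hM ⟨0, hL⟩ ▸ norm_nonneg _
  have h1 : ∀ i, ⟪y i, w i⟫ ≤ ‖y i - v i‖ * M + ‖V.starProjection (w i)‖ := by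
    intro i
    have h2 : ⟪y i, w i⟫ = ⟪y i - v i, w i - V.starProjection (w i)⟫ +
        ⟪y i, V.starProjection (w i)⟫ := by
      rw [inner_sub_left, Submodule.inner_right_of_mem_orthogonal (hv i)
        (V.sub_starProjection_mem_orthogonal _), inner_sub_right]
      ring
    rw [h2]
    refine add_le_add ((real_inner_le_norm _ _).trans
      (mul_le_mul_of_nonneg_left ?_ (norm_nonneg _))) ((real_inner_le_norm _ _).trans ?_)
    · rw [← V.starProjection_orthogonal_val, ← hM i]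
      exact Vᗮ.norm_starProjection_apply_le _
    · exact mul_le_of_le_one_left (norm_nonneg _) (hy i)
  have h2 : ∑ i, ‖y i - v i‖ ≤ L * ε := by
    refine abs_le_of_sq_le_sq' ?_ (by positivity) |>.2
    refine sq_sum_le_card_mul_sum_sq.trans ?_
    rw [Finset.card_univ, Fintype.card_fin]
    nlinarith
  have h3 : ∑ i, ‖V.starProjection (w i)‖ ^ 2 ≤ k * (M ^ 2 + η * L) := by
    let b := stdOrthonormalBasis ℝ V
    have h4 : ∀ x, ‖V.starProjection x‖ ^ 2 = ∑ a, ⟪(b a : H), x⟫ ^ 2 := by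
      intro x
      have := b.sum_sq_inner_right (V.orthogonalProjectionOnto x)
      rw [show ‖V.starProjection x‖ = ‖V.orthogonalProjectionOnto x‖ from rfl, ← this]
      refine Finset.sum_congr rfl fun a _ => ?_
      rw [Submodule.inner_orthogonalProjectionOnto_eq_of_mem_left]
    simp only [h4]
    rw [Finset.sum_comm]
    refine (Finset.sum_le_card_nsmul _ _ (M ^ 2 + η * L) fun a _ =>
      sum_inner_sq_le w M η hη hM hw _ (b.orthonormal.norm_eq_one a)).trans ?_
    rw [Finset.card_univ, Fintype.card_fin, nsmul_eq_mul]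
    exact mul_le_mul_of_nonneg_right (by exact_mod_cast hk) (by positivity)
  have h4 : ∑ i, ‖V.starProjection (w i)‖ ≤ L * √(k * (M ^ 2 / L + η)) := by
    refine abs_le_of_sq_le_sq' ?_ (by positivity) |>.2
    refine sq_sum_le_card_mul_sum_sq.trans ?_
    rw [Finset.card_univ, Fintype.card_fin, mul_pow, Real.sq_sqrt (by positivity)]
    refine (mul_le_mul_of_nonneg_left h3 hL'.le).trans (le_of_eq ?_)
    field_simp
  refine (Finset.sum_le_sum fun i _ => h1 i).trans ?_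
  rw [Finset.sum_add_distrib, ← Finset.sum_mul]
  nlinarith [mul_le_mul_of_nonneg_right h2 hM0]

variable {G : Type} [Group G] [DecidableEq G]

theorem finite_level (π : G →* (H →ₗᵢ[ℝ] H)) (f : H) (V : Submodule ℝ H) [FiniteDimensional ℝ V]
    (v : G → H) {k : ℕ} (hk : Module.finrank ℝ V ≤ k) (hf : ‖f‖ ≤ 1) (hv : ∀ g, v g ∈ V)
    (hv1 : ∀ g, ‖v g‖ ≤ 1) {S : Finset G} (hS : S.Nonempty) {ε ε' η : ℝ} (hε' : 0 ≤ ε')
    (hη : 0 ≤ η) (happ : (∑ g ∈ S, ‖π g⁻¹ f - v g‖ ^ 2) / S.card ≤ ε ^ 2)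
    {L : ℕ} (hL : 0 < L) (h : Fin L → G)
    (hdef : ∀ i, 4 * defect S (h i)⁻¹ ≤ ε' ^ 2 - ε ^ 2) (u : H)
    (hu : ∀ i j, i ≠ j → |⟪π (h i) u, π (h j) u⟫| ≤ η) :
    ⟪f, u⟫ ≤ ε' * ‖u‖ + √(k * (‖u‖ ^ 2 / L + η)) := by
  have hL' : (0 : ℝ) < L := by exact_mod_cast hL
  have hpos : (0 : ℝ) < S.card := by exact_mod_cast hS.card_pos
  let a : G → ℝ := fun g => ‖π g⁻¹ f - v g‖ ^ 2
  have ha : ∀ g, |a g| ≤ 4 := by
    intro g
    have h1 := norm_sub_le (π g⁻¹ f) (v g)
    rw [(π g⁻¹).norm_map] at h1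
    rw [abs_of_nonneg (sq_nonneg _)]
    nlinarith [norm_nonneg (π g⁻¹ f - v g), hv1 g]
  have h1 : ∀ i, ∑ g ∈ S, a ((h i)⁻¹ * g) ≤ S.card * ε' ^ 2 := by
    intro i
    have := (abs_le.mp (avg_shift_le S (h i)⁻¹ a 4 ha)).2
    rw [mul_comm, ← div_le_iff₀ hpos]
    linarith [hdef i]
  obtain ⟨g, -, hg⟩ := Finset.exists_le_of_sum_le (f := fun g => ∑ i, a ((h i)⁻¹ * g))
    (g := fun _ => (L : ℝ) * ε' ^ 2) hS (by
      rw [Finset.sum_comm]
      refine (Finset.sum_le_sum fun i _ => h1 i).trans (le_of_eq ?_)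
      simp only [Finset.sum_const, Finset.card_univ, Fintype.card_fin, nsmul_eq_mul]
      ring)
  have h2 := sum_inner_le hL V hk (fun i => π g⁻¹ (π (h i) f)) (fun i => π g⁻¹ (π (h i) u))
    (fun i => v ((h i)⁻¹ * g)) ‖u‖ η ε' hη hε' (fun i => hv _)
    (fun i => by rwa [(π _).norm_map, (π _).norm_map])
    (fun i => by rw [(π _).norm_map, (π _).norm_map])
    (fun i j hij => by rw [(π _).inner_map_map]; exact hu i j hij)
    (by simpa only [a, mul_inv_rev, inv_inv, rep_mul] using hg)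
  simp only [LinearIsometry.inner_map_map, Finset.sum_const, Finset.card_univ, Fintype.card_fin,
    nsmul_eq_mul] at h2
  exact le_of_mul_le_mul_left h2 hL'

end finite

theorem gns {E : Type} [AddCommGroup E] [Module ℝ E] (B : E →ₗ[ℝ] E →ₗ[ℝ] ℝ)
    (hsymm : ∀ a b, B a b = B b a) (hpos : ∀ a, 0 ≤ B a a) :
    ∃ (H : Type) (_ : NormedAddCommGroup H) (_ : InnerProductSpace ℝ H) (_ : CompleteSpace H)
      (ι : E →ₗ[ℝ] H), DenseRange ι ∧ ∀ a b, ⟪ι a, ι b⟫ = B a b := by
  let c : PreInnerProductSpace.Core ℝ E :=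
    { inner := fun a b => B a b
      conj_inner_symm := fun a b => by simpa using hsymm b a
      re_inner_nonneg := fun a => by simpa using hpos a
      add_left := fun a b c => by simp
      smul_left := fun a b c => by simp }
  let : SeminormedAddCommGroup E := InnerProductSpace.Core.toSeminormedAddCommGroup (𝕜 := ℝ)
  let : InnerProductSpace ℝ E := .ofCore _
  refine ⟨UniformSpace.Completion E, inferInstance, inferInstance, inferInstance,
    (UniformSpace.Completion.toComplₗᵢ (𝕜 := ℝ) (E := E)).toLinearMap,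
    UniformSpace.Completion.denseRange_coe, fun a b => ?_⟩
  exact UniformSpace.Completion.inner_coe a b

variable {G : Type} [Group G] [DecidableEq G]

/- the conclusion in the limit space -/
theorem limit_level {H : Type} [NormedAddCommGroup H] [InnerProductSpace ℝ H] [CompleteSpace H]
    (π : G →* (H →ₗᵢ[ℝ] H)) {F : ℕ → Finset G} (hF : IsFolner F) {g0 : G} (hg : InKer g0) (f : H)
    (k : ℕ) {ε : ℝ} (hε : 0 ≤ ε)
    (h : ∀ (η : ℝ), 0 < η → ∀ (L : ℕ), 0 < L → ∀ (h : Fin L → G) (u : H),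
      (∀ i j, i ≠ j → |⟪π (h i) u, π (h j) u⟫| < η) →
      ⟪f, u⟫ ≤ ε * ‖u‖ + √(k * (‖u‖ ^ 2 / L + η))) :
    ‖π g0 f - f‖ ≤ 2 * ε := by
  have : CompleteSpace (fixedSub π) := (fixedSub_closed π).completeSpace_coe
  set c := (fixedSub π).starProjection f with hc
  set w := f - c with hw
  have hw' : w ∈ (fixedSub π)ᗮ := (fixedSub π).sub_starProjection_mem_orthogonal f
  have hc' : c ∈ fixedSub π := (fixedSub π).starProjection_apply_mem f
  have h1 : ⟪f, w⟫ = ‖w‖ ^ 2 := by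
    have : f = c + w := by rw [hw]; abel
    conv_lhs => rw [this]
    rw [inner_add_left, Submodule.inner_right_of_mem_orthogonal hc' hw', zero_add,
      real_inner_self_eq_norm_sq]
  have h2 : ‖w‖ ^ 2 ≤ ε * ‖w‖ := by
    have h3 : Tendsto (fun L : ℕ => ε * ‖w‖ + √(k * (‖w‖ ^ 2 / ((L + 1 : ℕ) : ℝ) +
        1 / ((L + 1 : ℕ) : ℝ)))) atTop (𝓝 (ε * ‖w‖ + √(k * (0 + 0)))) := by
      refine tendsto_const_nhds.add (Tendsto.sqrt (Tendsto.const_mul _ (Tendsto.add ?_ ?_)))
      · exact (tendsto_const_div_atTop_nhds_zero_nat _).comp (tendsto_add_atTop_nat 1)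
      · exact (tendsto_const_div_atTop_nhds_zero_nat _).comp (tendsto_add_atTop_nat 1)
    simp only [add_zero, mul_zero, Real.sqrt_zero] at h3
    refine ge_of_tendsto' h3 fun L => ?_
    have hη : (0 : ℝ) < 1 / ((L + 1 : ℕ) : ℝ) := by positivity
    obtain ⟨s, hs⟩ := exists_almost_orth π hF hw' hη
    exact h1.symm.trans_le (h _ hη (L + 1) (Nat.succ_pos L) (fun i => s i) w
      fun i j hij => hs i j fun h => hij (Fin.ext h))
  have h3 : ‖w‖ ≤ ε := by
    rcases eq_or_lt_of_le (norm_nonneg w) with h0 | h0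
    · rw [← h0]; exact hε
    exact le_of_mul_le_mul_right (by nlinarith) h0
  have h4 : π g0 f - f = π g0 w - w := by
    rw [hw, map_sub, hc' g0 hg]; abel
  rw [h4]
  refine (norm_sub_le _ _).trans ?_
  rw [(π g0).norm_map]
  linarith

theorem core {F : ℕ → Finset G} (hF : IsFolner F) {g0 : G} (hg : InKer g0) (k : ℕ) {ε : ℝ}
    (hε : 0 < ε) :
    ∀ᶠ n in atTop, ∀ (H : Type) [NormedAddCommGroup H] [InnerProductSpace ℝ H]
      (π : G →* (H →ₗᵢ[ℝ] H)) (f : H) (V : Submodule ℝ H) [FiniteDimensional ℝ V] (v : G → H),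
      Module.finrank ℝ V ≤ k → ‖f‖ ≤ 1 → (∀ g, v g ∈ V) → (∀ g, ‖v g‖ ≤ 1) →
      (∑ g ∈ F n, ‖π g⁻¹ f - v g‖ ^ 2) / (F n).card ≤ ε ^ 2 → ‖π g0 f - f‖ ≤ 5 * ε := by
  by_contra hcon
  rw [not_eventually] at hcon
  obtain ⟨φ, hφ, hcon⟩ := extraction_of_frequently_atTop hcon
  simp only [not_forall, not_le] at hcon
  choose H iH1 iH2 π f V iV v hk hf hv hv1 happ hbig using hcon
  have hF' := hF.comp hφ.tendsto_atTop
  let Λ : ∀ n, (G →₀ ℝ) →ₗ[ℝ] H n := fun n => Finsupp.linearCombination ℝ fun g => π n g (f n)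
  let τ : G → (G →₀ ℝ) ≃ₗ[ℝ] (G →₀ ℝ) := fun g => Finsupp.domLCongr (Equiv.mulLeft g)
  have hτ : ∀ g h c, τ g (Finsupp.single h c) = Finsupp.single (g * h) c := fun g h c => by
    simp [τ]
  have hΛ1 : ∀ n g c, Λ n (Finsupp.single g c) = c • π n g (f n) := fun n g c => by simp [Λ]
  have hΛτ : ∀ n g a, Λ n (τ g a) = π n g (Λ n a) := by
    intro n g a
    induction a using Finsupp.induction_linear with
    | zero => simp
    | add a b ha hb => simp only [map_add, ha, hb]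
    | single h c => rw [hτ, hΛ1, hΛ1, map_smul, rep_mul]
  have hΛb : ∀ a, ∃ C, ∀ n, ‖Λ n a‖ ≤ C := by
    intro a
    induction a using Finsupp.induction_linear with
    | zero => exact ⟨0, by simp⟩
    | add a b ha hb =>
      obtain ⟨C, hC⟩ := ha
      obtain ⟨D, hD⟩ := hb
      exact ⟨C + D, fun n => by
        rw [map_add]; exact (norm_add_le _ _).trans (add_le_add (hC n) (hD n))⟩
    | single h c =>
      exact ⟨‖c‖, fun n => by
        rw [hΛ1, norm_smul, (π n h).norm_map]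
        exact mul_le_of_le_one_right (norm_nonneg _) (hf n)⟩
  let Bn : ℕ → (G →₀ ℝ) →ₗ[ℝ] (G →₀ ℝ) →ₗ[ℝ] ℝ := fun n =>
    (innerₗ (H n)).compl₁₂ (Λ n) (Λ n)
  have hBn : ∀ n a b, Bn n a b = ⟪Λ n a, Λ n b⟫ := fun n a b => rfl
  obtain ⟨B, hB⟩ := exists_ulim_bilin (hyperfilter ℕ) Bn fun a b => by
    obtain ⟨C, hC⟩ := hΛb a
    obtain ⟨D, hD⟩ := hΛb b
    exact ⟨C * D, fun n => (abs_real_inner_le_norm _ _).trans
      (mul_le_mul (hC n) (hD n) (norm_nonneg _) ((norm_nonneg _).trans (hC n)))⟩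
  simp only [hBn] at hB
  obtain ⟨K, iK1, iK2, iK3, ι, hι, hιB⟩ := gns B
    (fun a b => tendsto_nhds_unique (hB a b) ((hB b a).congr fun n => real_inner_comm _ _))
    (fun a => ge_of_tendsto' (hB a a) fun n => real_inner_self_nonneg)
  have hnorm : ∀ a, Tendsto (fun n => ‖Λ n a‖) (hyperfilter ℕ) (𝓝 ‖ι a‖) := by
    intro a
    have := (hB a a).sqrt
    rw [← hιB, real_inner_self_eq_norm_sq, Real.sqrt_sq (norm_nonneg _)] at this
    simpa only [real_inner_self_eq_norm_sq, Real.sqrt_sq (norm_nonneg _)] using this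
  have hiso : ∀ g a, ‖ι (τ g a)‖ = ‖ι a‖ := fun g a =>
    tendsto_nhds_unique (hnorm _) ((hnorm a).congr fun n => by rw [hΛτ, (π n g).norm_map])
  let ρ0 : G → K →ₗᵢ[ℝ] K := fun g =>
    ((τ g).extendOfIsometry ι ι hι hι (hiso g)).toLinearIsometry
  have hρ0 : ∀ g a, ρ0 g (ι a) = ι (τ g a) := fun g a =>
    LinearEquiv.extendOfIsometry_eq _ _ _ hι hι (hiso g) a
  have hτ1 : ∀ a, τ 1 a = a := by
    intro a
    induction a using Finsupp.induction_linear with
    | zero => simp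
    | add a b ha hb => simp only [map_add, ha, hb]
    | single h c => rw [hτ, one_mul]
  have hτm : ∀ g g' a, τ (g * g') a = τ g (τ g' a) := by
    intro g g' a
    induction a using Finsupp.induction_linear with
    | zero => simp
    | add a b ha hb => simp only [map_add, ha, hb]
    | single h c => rw [hτ, hτ, hτ, mul_assoc]
  let ρ : G →* (K →ₗᵢ[ℝ] K) :=
    { toFun := ρ0
      map_one' := by
        ext x
        exact hι.induction_on x (isClosed_eq (ρ0 1).continuous continuous_id)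
          fun a => by rw [hρ0, hτ1]; rfl
      map_mul' := fun g g' => by
        ext x
        exact hι.induction_on x
          (isClosed_eq (ρ0 _).continuous ((ρ0 g).continuous.comp (ρ0 g').continuous))
          fun a => by rw [hρ0, hτm, ← hρ0, ← hρ0]; rfl }
  have hρ : ∀ g a, ρ g (ι a) = ι (τ g a) := hρ0
  let d : G →₀ ℝ := Finsupp.single 1 1
  have hd : ∀ n, Λ n d = f n := fun n => by rw [hΛ1, one_smul, rep_one]
  have key := limit_level ρ hF hg (ι d) k (ε := 2 * ε) (by positivity) (by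
    intro η hη L hL h u hu
    have h1 : ∀ a, (∀ i j, i ≠ j → |⟪ρ (h i) (ι a), ρ (h j) (ι a)⟫| < η) →
        ⟪ι d, ι a⟫ ≤ 2 * ε * ‖ι a‖ + √(k * (‖ι a‖ ^ 2 / L + η)) := by
      intro a ha
      rw [hιB]
      refine le_of_tendsto_of_tendsto (hB d a) (((hnorm a).const_mul _).add
        (Tendsto.sqrt (Tendsto.const_mul _ ((((hnorm a).pow 2).div_const _).add_const _)))) ?_
      have e1 : ∀ᶠ n in (hyperfilter ℕ : Filter ℕ), ∀ i,
          4 * defect (F (φ n)) (h i)⁻¹ ≤ (2 * ε) ^ 2 - ε ^ 2 := by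
        rw [eventually_all]
        intro i
        refine Nat.hyperfilter_le_atTop ?_
        have := (hF'.defect (h i)⁻¹).const_mul 4
        rw [mul_zero] at this
        exact this.eventually (ge_mem_nhds (by nlinarith))
      have e2 : ∀ᶠ n in (hyperfilter ℕ : Filter ℕ), ∀ i j, i ≠ j →
          |⟪π n (h i) (Λ n a), π n (h j) (Λ n a)⟫| ≤ η := by
        simp only [eventually_all]
        intro i j hij
        have := ha i j hij
        rw [hρ, hρ, hιB] at this
        simp only [← hΛτ]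
        exact (hB _ _).abs.eventually (ge_mem_nhds this)
      filter_upwards [e1, e2] with n h1 h2
      rw [hd]
      exact finite_level (π n) (f n) (V n) (v n) (hk n) (hf n) (hv n) (hv1 n) (hF.1 _)
        (by positivity) hη.le (happ n) hL h h1 _ h2
    obtain ⟨s, hs, hs'⟩ := mem_closure_iff_seq_limit.mp (hι u)
    choose a ha using hs
    refine le_of_tendsto_of_tendsto (tendsto_const_nhds.inner hs') ((hs'.norm.const_mul _).add
      (Tendsto.sqrt (Tendsto.const_mul _ (((hs'.norm.pow 2).div_const _).add_const _)))) ?_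
    have e1 : ∀ᶠ n in atTop, ∀ i j, i ≠ j → |⟪ρ (h i) (s n), ρ (h j) (s n)⟫| < η := by
      simp only [eventually_all]
      intro i j hij
      exact ((((ρ (h i)).continuous.tendsto u).comp hs').inner
        (((ρ (h j)).continuous.tendsto u).comp hs')).abs.eventually (gt_mem_nhds (hu i j hij))
    filter_upwards [e1] with n hn
    rw [← ha n] at hn ⊢
    exact h1 _ hn)
  have h2 := hnorm (τ g0 d - d)
  rw [map_sub, ← hρ] at h2
  have h3 : 5 * ε ≤ ‖ρ g0 (ι d) - ι d‖ := ge_of_tendsto' h2 fun n => by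
    rw [map_sub, hΛτ, hd]; exact (hbig n).le
  linarith

end Pool.Agent.P.MP_0c3bbf_an
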