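import Mathlib

namespace Pool.Agent.P.MP_0c3bbf_an

open MeasureTheory Filter Topology
open scoped ENNReal

/- (left) Folner sequence of finite subsets -/
def IsFolner {G : Type} [Group G] [DecidableEq G] (F : ℕ → Finset G) : Prop :=
  (∀ n, (F n).Nonempty) ∧
  ∀ g : G, Tendsto
    (fun n => ((symmDiff ((F n).image fun h => g * h) (F n)).card : ℝ) / ((F n).card : ℝ))
    atTop (𝓝 0)

/- epsilon-entropy of a semimetric triple -/
noncomputable def epsEntropy {X : Type} [MeasurableSpace X] (μ : Measure X) (ρ : X → X → ℝ)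
    (ε : ℝ) : ℝ≥0∞ :=
  ⨅ (k : ℕ) (_ : 0 < k ∧ ∃ (X₀ : Set X) (Y : Fin k → Set X),
      MeasurableSet X₀ ∧ (∀ i, MeasurableSet (Y i)) ∧ X₀ ∪ ⋃ i, Y i = Set.univ ∧
      μ X₀ < ENNReal.ofReal ε ∧
      ∀ i, (⨆ x ∈ Y i, ⨆ y ∈ Y i, ENNReal.ofReal (ρ x y)) < ENNReal.ofReal ε),
    ENNReal.ofReal (Real.logb 2 k)

/- summable admissible generating measurable semimetric -/
def IsGoodSemimetric (G : Type) [Group G] {X : Type} [MeasurableSpace X] [MulAction G X]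
    (μ : Measure X) (ρ : X → X → ℝ) : Prop :=
  Measurable (fun p : X × X => ρ p.1 p.2) ∧ (∀ x y, 0 ≤ ρ x y) ∧ (∀ x y, ρ x y = ρ y x) ∧
  (∀ x y z, ρ x z ≤ ρ x y + ρ y z) ∧
  Integrable (fun p : X × X => ρ p.1 p.2) (μ.prod μ) ∧
  (∀ ε > 0, epsEntropy μ ρ ε < ⊤) ∧
  ∃ X' : Set X, μ X'ᶜ = 0 ∧ ∀ x ∈ X', ∀ y ∈ X', x ≠ y → ∃ g : G, ρ (g • x) (g • y) ≠ 0

/- the function Phi_rho -/
noncomputable def Phi {G : Type} [Group G] {X : Type} [MeasurableSpace X] [MulAction G X]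
    (μ : Measure X) (F : ℕ → Finset G) (ρ : X → X → ℝ) (n : ℕ) (ε : ℝ) : ℝ≥0∞ :=
  epsEntropy μ (fun x y => (∑ g ∈ F n, ρ (g • x) (g • y)) / ((F n).card : ℝ)) ε

/- the comparison relation -/
def Precsim (Φ Ψ : ℕ → ℝ → ℝ≥0∞) : Prop :=
  ∀ ε > 0, ∃ δ > 0, limsup (fun n => Φ n ε / Ψ n δ) atTop < ⊤

def EssFree (G : Type) [Group G] {X : Type} [MeasurableSpace X] [MulAction G X]
    (μ : Measure X) : Prop :=
  ∀ᵐ x ∂μ, ∀ g : G, g • x = x → g = 1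

def IsCompactAction (G : Type) [Group G] {X : Type} [MeasurableSpace X] [MulAction G X]
    [MeasurableConstSMul G X] (μ : Measure X) [SMulInvariantMeasure G X μ] : Prop :=
  ∀ f : Lp ℂ 2 μ, IsCompact (closure (Set.range fun g : G =>
    Lp.compMeasurePreserving (fun x => g⁻¹ • x) (measurePreserving_smul g⁻¹ μ) f))

end Pool.Agent.P.MP_0c3bbf_an
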