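import Pool.Agent.P.MP_0c3bbf_an.Hilbert

namespace Pool.Agent.P.MP_0c3bbf_an

open MeasureTheory Filter Topology

theorem free_compact_of_hom {G : Type} [Group G] (K : Type) [Group K] [TopologicalSpace K]
    [IsTopologicalGroup K] [CompactSpace K] [T2Space K] [SecondCountableTopology K] (σ : G →* K)
    (hσ : ∀ g, σ g = 1 → g = 1) :
    ∃ (X : Type) (_ : MeasurableSpace X) (_ : StandardBorelSpace X) (μ : Measure X)
      (_ : IsProbabilityMeasure μ) (_ : MulAction G X) (_ : MeasurableConstSMul G X)
      (_ : SMulInvariantMeasure G X μ), EssFree G μ ∧ IsCompactAction G μ := by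
  borelize K
  have : TopologicalSpace.MetrizableSpace K := inferInstance
  have : PolishSpace K := by
    let _ := TopologicalSpace.metrizableSpaceMetric K
    infer_instance
  let μ : Measure K := Measure.haarMeasure ⊤
  have : IsProbabilityMeasure μ := ⟨by
    have := Measure.haarMeasure_self (G := K) (K₀ := ⊤)
    rwa [TopologicalSpace.PositiveCompacts.coe_top] at this⟩
  let act : MulAction G K := MulAction.compHom K σ
  have hsm : ∀ (g : G) (x : K), g • x = σ g * x := fun g x => rfl
  have : MeasurableConstSMul G K := ⟨fun g => measurable_const_mul (σ g)⟩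
  have : SMulInvariantMeasure G K μ := ⟨fun g s _ => measure_preimage_mul μ (σ g) s⟩
  refine ⟨K, inferInstance, inferInstance, μ, inferInstance, act, inferInstance, inferInstance,
    Eventually.of_forall fun x g hg => hσ g (by simpa [hsm] using hg), fun f => ?_⟩
  have : Fact ((2 : ENNReal) ≠ ⊤) := ⟨by simp⟩
  have hc : Continuous fun k : K => (DomMulAct.mk k • f : Lp ℂ 2 μ) :=
    DomMulAct.continuous_mk.smul continuous_const
  refine (isCompact_range hc).closure_of_subset ?_
  rintro _ ⟨g, rfl⟩
  exact ⟨σ g⁻¹, rfl⟩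

theorem exists_inKer {G : Type} [Group G] [Countable G]
    (hno : ∀ (X : Type) [MeasurableSpace X] [StandardBorelSpace X] (μ : Measure X)
      [IsProbabilityMeasure μ] [MulAction G X] [MeasurableConstSMul G X]
      [SMulInvariantMeasure G X μ], EssFree G μ → ¬ IsCompactAction G μ) :
    ∃ g : G, g ≠ 1 ∧ InKer g := by
  by_contra hcon
  have : ∀ g : {g : G // g ≠ 1}, ∃ (K : Type) (_ : Group K) (_ : TopologicalSpace K)
      (_ : IsTopologicalGroup K) (_ : CompactSpace K) (_ : T2Space K)
      (_ : SecondCountableTopology K) (σ : G →* K), σ g ≠ 1 := by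
    intro g
    by_contra h
    refine hcon ⟨g, g.2, fun K _ _ _ _ _ _ σ => ?_⟩
    by_contra h'
    exact h ⟨K, _, _, inferInstance, inferInstance, inferInstance, inferInstance, σ, h'⟩
  choose K i1 i2 i3 i4 i5 i6 σ hσ using this
  obtain ⟨X, _, _, μ, _, _, _, _, h1, h2⟩ := free_compact_of_hom (∀ g, K g) (MonoidHom.pi σ) (by
    intro g hg
    by_contra h
    exact hσ ⟨g, h⟩ (congrFun hg ⟨g, h⟩))
  exact hno X μ h1 h2

end Pool.Agent.P.MP_0c3bbf_an
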