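import Pool.Agent.P.MP_0c3bbf_an.Avg

namespace Pool.Agent.P.MP_0c3bbf_an

open Filter Topology
open scoped RealInnerProductSpace

/- `g` is killed by every homomorphism to a compact metrizable group -/
def InKer {G : Type} [Group G] (g : G) : Prop :=
  ∀ (K : Type) [Group K] [TopologicalSpace K] [IsTopologicalGroup K] [CompactSpace K] [T2Space K]
    [SecondCountableTopology K] (σ : G →* K), σ g = 1

theorem InKer.conj {G : Type} [Group G] {g : G} (hg : InKer g) (t : G) : InKer (t * g * t⁻¹) := by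
  intro K _ _ _ _ _ _ σ
  simp [hg K σ]

theorem InKer.inv {G : Type} [Group G] {g : G} (hg : InKer g) : InKer g⁻¹ := by
  intro K _ _ _ _ _ _ σ
  simp [hg K σ]

variable {G : Type} [Group G] {H : Type} [NormedAddCommGroup H] [InnerProductSpace ℝ H]

theorem rep_mul (π : G →* (H →ₗᵢ[ℝ] H)) (g h : G) (x : H) : π (g * h) x = π g (π h x) := by
  rw [map_mul]; rfl

theorem rep_one (π : G →* (H →ₗᵢ[ℝ] H)) (x : H) : π 1 x = x := by
  rw [map_one]; rfl

theorem rep_inner_left (π : G →* (H →ₗᵢ[ℝ] H)) (g : G) (x y : H) :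
    ⟪π g x, y⟫ = ⟪x, π g⁻¹ y⟫ := by
  rw [← (π g).inner_map_map x, ← rep_mul, mul_inv_cancel, rep_one]

theorem fd_triv_aux (W : Type) [NormedAddCommGroup W] [InnerProductSpace ℝ W]
    [FiniteDimensional ℝ W] (σ0 : G →* (W ≃ₗᵢ[ℝ] W)) {g : G} (hg : InKer g) : σ0 g = 1 := by
  have : CompleteSpace W := FiniteDimensional.complete ℝ W
  have : ProperSpace (W →L[ℝ] W) := FiniteDimensional.proper_real (W →L[ℝ] W)
  have : CompactSpace (unitary (W →L[ℝ] W)) := by
    refine isCompact_iff_compactSpace.mp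
      (Metric.isCompact_of_isClosed_isBounded isClosed_unitary ?_)
    refine (Metric.isBounded_closedBall (x := 0) (r := 1)).subset fun u hu => ?_
    rw [mem_closedBall_zero_iff]
    exact ContinuousLinearMap.opNorm_le_bound _ zero_le_one fun x => by
      rw [one_mul]; exact (ContinuousLinearMap.norm_map_of_mem_unitary hu x).le
  have h1 := hg (unitary (W →L[ℝ] W)) (Unitary.linearIsometryEquiv.symm.toMonoidHom.comp σ0)
  simpa using h1

theorem fd_triv (π : G →* (H →ₗᵢ[ℝ] H)) (V : Submodule ℝ H) [FiniteDimensional ℝ V]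
    (hV : ∀ g, ∀ v ∈ V, π g v ∈ V) {g : G} (hg : InKer g) : ∀ v ∈ V, π g v = v := by
  let e : G → V ≃ₗᵢ[ℝ] V := fun g =>
    { toFun := fun v => ⟨π g v, hV g v v.2⟩
      invFun := fun v => ⟨π g⁻¹ v, hV g⁻¹ v v.2⟩
      map_add' := fun v w => Subtype.ext (by simp)
      map_smul' := fun c v => Subtype.ext (by simp)
      left_inv := fun v => Subtype.ext (by simp [← rep_mul])
      right_inv := fun v => Subtype.ext (by simp [← rep_mul])
      norm_map' := fun v => (π g).norm_map v }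
  let σ0 : G →* (V ≃ₗᵢ[ℝ] V) :=
    { toFun := e
      map_one' := by ext v; exact rep_one π v
      map_mul' := fun g h => by ext v; exact rep_mul π g h v }
  have h2 : σ0 g = 1 := fd_triv_aux V σ0 hg
  intro v hv
  exact congrArg Subtype.val (DFunLike.congr_fun h2 ⟨v, hv⟩)

theorem compact_of_trace [CompleteSpace H] (T : H →L[ℝ] H) (C : ℝ)
    (hC : ∀ (n : ℕ) (e : Fin n → H), Orthonormal ℝ e → ∑ i, ‖T (e i)‖ ^ 2 ≤ C) :
    IsCompactOperator T := by
  refine isClosed_setOfPred_isCompactOperator.closure_subset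
    (Metric.mem_closure_iff.mpr fun η hη => ?_)
  let A : Set ℝ := {r | ∃ (n : ℕ) (e : Fin n → H), Orthonormal ℝ e ∧ r = ∑ i, ‖T (e i)‖ ^ 2}
  have hA : A.Nonempty := ⟨_, 0, Fin.elim0, Orthonormal.of_isEmpty _, rfl⟩
  have hb : BddAbove A := ⟨C, by rintro _ ⟨n, e, he, rfl⟩; exact hC n e he⟩
  obtain ⟨_, ⟨n, e, he, rfl⟩, hr⟩ :=
    exists_lt_of_lt_csSup hA (show sSup A - (η / 2) ^ 2 < sSup A by
      have : 0 < (η / 2) ^ 2 := by positivity
      linarith)
  let V : Submodule ℝ H := Submodule.span ℝ (Set.range e)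
  have : FiniteDimensional ℝ V := FiniteDimensional.span_of_finite ℝ (Set.finite_range e)
  have hsmall : ∀ x ∈ Vᗮ, ‖T x‖ ≤ η / 2 * ‖x‖ := by
    intro x hx
    rcases eq_or_ne x 0 with rfl | hx0
    · simp
    have hn : 0 < ‖x‖ := norm_pos_iff.mpr hx0
    have hy : Orthonormal ℝ (Matrix.vecCons (‖x‖⁻¹ • x) e) := by
      rw [orthonormal_vecCons_iff]
      refine ⟨by rw [norm_smul, norm_inv, norm_norm, inv_mul_cancel₀ hn.ne'], fun i => ?_, he⟩
      rw [inner_smul_left, Submodule.inner_left_of_mem_orthogonal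
        (Submodule.subset_span (Set.mem_range_self i)) hx, mul_zero]
    have h1 : _ ≤ sSup A := le_csSup hb ⟨_, _, hy, rfl⟩
    rw [Fin.sum_univ_succ] at h1
    simp only [Matrix.cons_val_zero, Matrix.cons_val_succ] at h1
    have h2 : ‖T (‖x‖⁻¹ • x)‖ ≤ η / 2 := by
      refine abs_le_of_sq_le_sq' (by linarith) (by positivity) |>.2
    rw [map_smul, norm_smul, norm_inv, norm_norm, inv_mul_le_iff₀ hn] at h2
    linarith
  refine ⟨T ∘L V.starProjection, ?_, ?_⟩
  · exact (isCompactOperator_of_locallyCompactSpace_rng (T ∘L V.subtypeL)).comp_clm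
      V.orthogonalProjectionOnto
  · rw [dist_eq_norm]
    refine lt_of_le_of_lt (ContinuousLinearMap.opNorm_le_bound _ (by positivity : 0 ≤ η / 2)
      fun x => ?_) (by linarith)
    have h1 := hsmall _ (V.sub_starProjection_mem_orthogonal x)
    rw [map_sub] at h1
    refine h1.trans (mul_le_mul_of_nonneg_left ?_ (by positivity))
    rw [← V.starProjection_orthogonal_val]
    exact Vᗮ.norm_starProjection_apply_le x

/- the subspace fixed by the kernel -/
def fixedSub (π : G →* (H →ₗᵢ[ℝ] H)) : Submodule ℝ H where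
  carrier := {x | ∀ g, InKer g → π g x = x}
  add_mem' := fun hx hy g hg => by rw [map_add, hx g hg, hy g hg]
  zero_mem' := fun g _ => map_zero _
  smul_mem' := fun c x hx g hg => by rw [map_smul, hx g hg]

theorem fixedSub_closed (π : G →* (H →ₗᵢ[ℝ] H)) : IsClosed (fixedSub π : Set H) := by
  have : (fixedSub π : Set H) = ⋂ g, ⋂ (_ : InKer g), {x | π g x = x} := by
    ext x; simp only [Set.mem_iInter]; rfl
  rw [this]
  exact isClosed_iInter fun g => isClosed_iInter fun _ =>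
    isClosed_eq (π g).continuous continuous_id

theorem fixedSub_inv (π : G →* (H →ₗᵢ[ℝ] H)) (t : G) {x : H} (hx : x ∈ fixedSub π) :
    π t x ∈ fixedSub π := by
  intro g hg
  have := hx _ (hg.conj t⁻¹)
  rw [← rep_mul]
  conv_rhs => rw [← this, ← rep_mul]
  congr 2
  group

theorem fixedSub_orth_inv (π : G →* (H →ₗᵢ[ℝ] H)) (t : G) {x : H} (hx : x ∈ (fixedSub π)ᗮ) :
    π t x ∈ (fixedSub π)ᗮ := by
  rw [Submodule.mem_orthogonal'] at hx ⊢
  intro y hy
  rw [rep_inner_left]
  exact hx _ (fixedSub_inv π _ hy)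

theorem mean_zero [DecidableEq G] [CompleteSpace H] (π : G →* (H →ₗᵢ[ℝ] H)) {F : ℕ → Finset G}
    (hF : IsFolner F) {w : H} (hw : w ∈ (fixedSub π)ᗮ) (x : H) :
    Tendsto (fun n => (∑ h ∈ F n, ⟪π h w, x⟫ * ⟪π h w, x⟫) / (F n).card)
      (hyperfilter ℕ) (𝓝 0) := by
  let Bn : ℕ → H →ₗ[ℝ] H →ₗ[ℝ] ℝ := fun n => LinearMap.mk₂ ℝ
    (fun x y => (∑ h ∈ F n, ⟪π h w, x⟫ * ⟪π h w, y⟫) / (F n).card)
    (fun x y z => by simp only [inner_add_right, add_mul, Finset.sum_add_distrib, add_div])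
    (fun c x z => by
      simp only [inner_smul_right, mul_assoc, ← Finset.mul_sum, smul_eq_mul, mul_div_assoc])
    (fun x y z => by simp only [inner_add_right, mul_add, Finset.sum_add_distrib, add_div])
    (fun c x z => by
      simp only [inner_smul_right, mul_left_comm _ c, ← Finset.mul_sum, smul_eq_mul,
        mul_div_assoc])
  have hb : ∀ (h : G) (x y : H), |⟪π h w, x⟫ * ⟪π h w, y⟫| ≤ ‖w‖ ^ 2 * ‖x‖ * ‖y‖ := by
    intro h x y
    rw [abs_mul]
    have h1 := abs_real_inner_le_norm (π h w) x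
    have h2 := abs_real_inner_le_norm (π h w) y
    rw [(π h).norm_map] at h1 h2
    calc _ ≤ (‖w‖ * ‖x‖) * (‖w‖ * ‖y‖) := mul_le_mul h1 h2 (abs_nonneg _) (by positivity)
      _ = _ := by ring
  have hBn : ∀ n x y, |Bn n x y| ≤ ‖w‖ ^ 2 * ‖x‖ * ‖y‖ := fun n x y =>
    abs_avg_le _ _ _ (by positivity) fun h => hb h x y
  obtain ⟨B, hB⟩ := exists_ulim_bilin (hyperfilter ℕ) Bn fun x y => ⟨_, fun n => hBn n x y⟩
  have hBb : ∀ x y, ‖B x y‖ ≤ ‖w‖ ^ 2 * ‖x‖ * ‖y‖ := fun x y =>
    le_of_tendsto' (hB x y).abs fun n => hBn n x y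
  let T : H →L[ℝ] H :=
    InnerProductSpace.continuousLinearMapOfBilin (𝕜 := ℝ) (B.mkContinuous₂ _ hBb)
  have hT : ∀ x y, ⟪T x, y⟫ = B x y := fun x y =>
    InnerProductSpace.continuousLinearMapOfBilin_apply _ x y
  have hsymm : ∀ x y, B x y = B y x := fun x y =>
    tendsto_nhds_unique (hB x y) ((hB y x).congr fun n => by
      simp only [Bn, LinearMap.mk₂_apply, mul_comm])
  have hpos : ∀ x, 0 ≤ B x x := fun x =>
    ge_of_tendsto' (hB x x) fun n =>
      div_nonneg (Finset.sum_nonneg fun h _ => mul_self_nonneg _) (Nat.cast_nonneg _)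
  have hTs : (T : H →ₗ[ℝ] H).IsSymmetric := fun x y => by
    change ⟪T x, y⟫ = ⟪x, T y⟫
    rw [hT, real_inner_comm, hT, hsymm]
  have hinv : ∀ t x y, B (π t x) y = B x (π t⁻¹ y) := by
    intro t x y
    refine tendsto_nhds_unique (hB _ _) ?_
    have h1 : Tendsto (fun n => Bn n (π t x) y - Bn n x (π t⁻¹ y)) (hyperfilter ℕ) (𝓝 0) := by
      refine Tendsto.mono_left ?_ Nat.hyperfilter_le_atTop
      refine squeeze_zero_norm (fun n => ?_)
        (by simpa using (hF.defect t⁻¹).const_mul (‖w‖ ^ 2 * ‖x‖ * ‖π t⁻¹ y‖))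
      have := avg_shift_le (F n) t⁻¹ (fun h => ⟪π h w, x⟫ * ⟪π h w, π t⁻¹ y⟫) _
        fun h => hb h x (π t⁻¹ y)
      simp only [rep_mul, LinearIsometry.inner_map_map] at this
      simp only [rep_inner_left π t⁻¹, inv_inv] at this
      simpa [Bn] using this
    simpa using h1.add (hB x (π t⁻¹ y))
  have hcomm : ∀ t x, T (π t x) = π t (T x) := fun t x =>
    ext_inner_right ℝ fun y => by rw [hT, hinv, rep_inner_left, hT]
  have hrange : ∀ x, T x ∈ (fixedSub π)ᗮ := by
    intro x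
    rw [Submodule.mem_orthogonal']
    intro y hy
    rw [hT]
    refine tendsto_nhds_unique (hB x y) (tendsto_const_nhds.congr fun n => ?_)
    have : ∀ h, ⟪π h w, y⟫ = 0 := fun h =>
      Submodule.inner_left_of_mem_orthogonal hy (fixedSub_orth_inv π h hw)
    simp [Bn, this]
  have hcpt : IsCompactOperator T := by
    refine compact_of_trace T (‖w‖ ^ 2 * ‖w‖ ^ 2) fun m e he => ?_
    have h1 : ∀ x, ‖T x‖ ^ 2 ≤ ‖w‖ ^ 2 * B x x := by
      intro x
      have h2 := LinearMap.BilinForm.apply_sq_le_of_symm B hpos ⟨fun x y => hsymm x y⟩ x (T x)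
      have h3 : B (T x) (T x) ≤ ‖w‖ ^ 2 * ‖T x‖ * ‖T x‖ := (le_abs_self _).trans (hBb _ _)
      rw [← hT x (T x), real_inner_self_eq_norm_sq] at h2
      rcases eq_or_lt_of_le (sq_nonneg ‖T x‖) with h0 | h0
      · rw [← h0]; exact mul_nonneg (sq_nonneg _) (hpos x)
      have h4 := mul_le_mul_of_nonneg_left h3 (hpos x)
      refine le_of_mul_le_mul_right ?_ h0
      nlinarith
    have h2 : ∑ i, B (e i) (e i) ≤ ‖w‖ ^ 2 := by
      refine le_of_tendsto' (tendsto_finsetSum Finset.univ fun i _ => hB (e i) (e i)) fun n => ?_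
      simp only [Bn, LinearMap.mk₂_apply]
      rw [← Finset.sum_div, Finset.sum_comm]
      refine (le_abs_self _).trans (abs_avg_le _ _ _ (sq_nonneg _) fun h => ?_)
      rw [abs_of_nonneg (Finset.sum_nonneg fun i _ => mul_self_nonneg _)]
      have := he.sum_inner_products_le (s := Finset.univ) (π h w)
      rw [(π h).norm_map] at this
      refine le_trans (le_of_eq (Finset.sum_congr rfl fun i _ => ?_)) this
      rw [Real.norm_eq_abs, sq_abs, real_inner_comm, sq]
    refine (Finset.sum_le_sum fun i _ => h1 (e i)).trans ?_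
    rw [← Finset.mul_sum]
    exact mul_le_mul_of_nonneg_left h2 (sq_nonneg _)
  have hT0 : T = 0 := by
    rw [← ContinuousLinearMap.eq_zero_of_forall_hasEigenvalue_eq_zero hcpt hTs]
    intro μ hμ
    by_contra hμ0
    have := ContinuousLinearMap.finite_dimensional_eigenspace hcpt μ hμ0
    obtain ⟨v, hv, hv0⟩ := hμ.exists_hasEigenvector
    have hfix : v ∈ fixedSub π := fun g hg =>
      fd_triv π (Module.End.eigenspace T.toLinearMap μ) (fun t x hx => by
        rw [Module.End.mem_eigenspace_iff] at hx ⊢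
        change T (π t x) = _
        rw [hcomm, ← map_smul, ← hx]
        rfl) hg v hv
    have h1 : T v = μ • v := Module.End.mem_eigenspace_iff.mp hv
    have h2 := Submodule.inner_left_of_mem_orthogonal hfix (hrange v)
    rw [h1, inner_smul_left, inner_self_eq_norm_sq_to_K] at h2
    simp [hμ0, hv0] at h2
  have := hB x x
  rw [← hT, hT0] at this
  simpa [Bn] using this

theorem exists_almost_orth [DecidableEq G] [CompleteSpace H] (π : G →* (H →ₗᵢ[ℝ] H))
    {F : ℕ → Finset G} (hF : IsFolner F) {w : H} (hw : w ∈ (fixedSub π)ᗮ) {η : ℝ} (hη : 0 < η) :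
    ∃ h : ℕ → G, ∀ i j, i ≠ j → |⟪π (h i) w, π (h j) w⟫| < η := by
  have : Std.Symm fun a b : G => |⟪π a w, π b w⟫| < η := ⟨fun a b h => by rwa [real_inner_comm]⟩
  obtain ⟨f, -, hf⟩ := exists_seq_of_forall_finset_exists' (fun _ : G => True)
    (fun a b : G => |⟪π a w, π b w⟫| < η) (by
      intro s _
      have h1 := tendsto_finsetSum s fun a _ => mean_zero π hF hw (π a w)
      rw [Finset.sum_const_zero] at h1
      obtain ⟨n, hn⟩ := (h1.eventually (gt_mem_nhds (mul_pos hη hη))).exists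
      have hpos : (0 : ℝ) < (F n).card := by exact_mod_cast (hF.1 n).card_pos
      rw [← Finset.sum_div, Finset.sum_comm, div_lt_iff₀ hpos] at hn
      obtain ⟨y, -, hy⟩ := Finset.exists_lt_of_sum_lt (g := fun _ => η * η) (s := F n)
        (hn.trans_eq (by rw [Finset.sum_const, nsmul_eq_mul, mul_comm]))
      refine ⟨y, trivial, fun a ha => ?_⟩
      have h2 := (Finset.single_le_sum (f := fun a => ⟪π y w, π a w⟫ * ⟪π y w, π a w⟫)
        (fun a _ => mul_self_nonneg _) ha).trans_lt hy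
      rw [real_inner_comm]
      exact abs_lt_of_sq_lt_sq (by rw [sq, sq]; exact h2) hη.le)
  exact ⟨f, fun i j hij => hf hij⟩

end Pool.Agent.P.MP_0c3bbf_an
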