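import Pool.Agent.P.MP_0c3bbf_an.Core
import Pool.Agent.P.MP_0c3bbf_an.Haar

namespace Pool.Agent.P.MP_0c3bbf_an

open MeasureTheory Filter Topology
open scoped ENNReal NNReal

variable {G : Type} [Group G] {X : Type} [MeasurableSpace X] (μ : Measure X)
  [IsProbabilityMeasure μ] [MulAction G X] [MeasurableConstSMul G X] [SMulInvariantMeasure G X μ]

noncomputable def koop : G →* (Lp ℝ 2 μ →ₗᵢ[ℝ] Lp ℝ 2 μ) where
  toFun g := Lp.compMeasurePreservingₗᵢ ℝ (fun x => g⁻¹ • x) (measurePreserving_smul g⁻¹ μ)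
  map_one' := by
    ext1 f
    change DomMulAct.mk (1 : G)⁻¹ • f = f
    rw [inv_one]
    exact one_smul Gᵈᵐᵃ f
  map_mul' g h := by
    ext1 f
    change DomMulAct.mk (g * h)⁻¹ • f = DomMulAct.mk g⁻¹ • DomMulAct.mk h⁻¹ • f
    rw [← mul_smul, mul_inv_rev, DomMulAct.mk_mul]

omit [IsProbabilityMeasure μ] in
theorem koop_ae (g : G) (f : Lp ℝ 2 μ) : koop μ g f =ᵐ[μ] fun x => f (g⁻¹ • x) :=
  Lp.coeFn_compMeasurePreserving f (measurePreserving_smul g⁻¹ μ)

theorem norm_le_one_of_ae {f : Lp ℝ 2 μ} (h : ∀ᵐ x ∂μ, ‖f x‖ ≤ 1) : ‖f‖ ≤ 1 := by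
  have := Lp.norm_le_of_ae_bound zero_le_one h
  simpa [measureUnivNNReal] using this

omit [IsProbabilityMeasure μ] in
theorem norm_sq_eq (f : Lp ℝ 2 μ) : ‖f‖ ^ 2 = ∫ x, f x ^ 2 ∂μ := by
  rw [← real_inner_self_eq_norm_sq, L2.inner_def]
  simp

theorem cover_data (f0 : X → ℝ) (hm : Measurable f0) (h01 : ∀ x, 0 ≤ f0 x ∧ f0 x ≤ 1)
    (f : Lp ℝ 2 μ) (hf : f =ᵐ[μ] f0) (ρ : X → X → ℝ) (hlip : ∀ x y, |f0 x - f0 y| ≤ ρ x y)
    {S : Finset G} (hS : S.Nonempty) {δ : ℝ} (hδ : 0 < δ) {k : ℕ} (X₀ : Set X)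
    (Y : Fin k → Set X) (hX₀ : MeasurableSet X₀) (hY : ∀ i, MeasurableSet (Y i))
    (hcov : X₀ ∪ ⋃ i, Y i = Set.univ) (hμ : μ X₀ < ENNReal.ofReal δ)
    (hdiam : ∀ i, ∀ x ∈ Y i, ∀ y ∈ Y i, (∑ g ∈ S, ρ (g • x) (g • y)) / (S.card : ℝ) ≤ δ) :
    ∃ (V : Submodule ℝ (Lp ℝ 2 μ)) (_ : FiniteDimensional ℝ V) (v : G → Lp ℝ 2 μ),
      Module.finrank ℝ V ≤ k ∧ (∀ g, v g ∈ V) ∧ (∀ g, ‖v g‖ ≤ 1) ∧
      (∑ g ∈ S, ‖koop μ g⁻¹ f - v g‖ ^ 2) / S.card ≤ 2 * δ := by
  classical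
  have hpos : (0 : ℝ) < S.card := by exact_mod_cast hS.card_pos
  have : Nonempty X := nonempty_of_isProbabilityMeasure μ
  have hpt : ∀ i, ∃ p : X, ∀ x ∈ Y i, p ∈ Y i := by
    intro i
    rcases (Y i).eq_empty_or_nonempty with h | ⟨p, hp⟩
    · exact ⟨Classical.arbitrary X, by simp [h]⟩
    · exact ⟨p, fun _ _ => hp⟩
  choose p hp using hpt
  let Z : Fin k → Set X := fun i => Y i \ ⋃ j ∈ Finset.Iio i, Y j
  have hZ : ∀ i, MeasurableSet (Z i) := fun i =>
    (hY i).diff (Finset.measurableSet_biUnion _ fun j _ => hY j)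
  have hZu : ∀ x i j, x ∈ Z i → x ∈ Z j → i = j := by
    intro x i j hi hj
    by_contra hij
    rcases lt_or_gt_of_ne hij with h | h
    · exact hj.2 (Set.mem_biUnion (Finset.mem_Iio.mpr h) hi.1)
    · exact hi.2 (Set.mem_biUnion (Finset.mem_Iio.mpr h) hj.1)
  have hZc : ∀ x, x ∉ X₀ → ∃ i, x ∈ Z i := by
    intro x hx
    have h1 : x ∈ X₀ ∪ ⋃ i, Y i := hcov ▸ Set.mem_univ x
    obtain ⟨i, hi⟩ := Set.mem_iUnion.mp (h1.resolve_left hx)
    obtain ⟨j, hj⟩ := exists_minimal_of_wellFoundedLT (fun i => x ∈ Y i) ⟨i, hi⟩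
    refine ⟨j, hj.1, fun h => ?_⟩
    simp only [Set.mem_iUnion, Finset.mem_Iio] at h
    obtain ⟨l, hl, hxl⟩ := h
    exact absurd (hj.2 hxl hl.le) (not_le.mpr hl)
  let e : Fin k → Lp ℝ 2 μ := fun i => indicatorConstLp 2 (hZ i) (measure_ne_top μ _) 1
  let w : G → X → ℝ := fun g x => ∑ i, f0 (g • p i) * (Z i).indicator (fun _ => (1 : ℝ)) x
  have hw1 : ∀ g x i, x ∈ Z i → w g x = f0 (g • p i) := by
    intro g x i hi
    simp only [w]
    rw [Finset.sum_eq_single i]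
    · simp [hi]
    · intro j _ hj
      rw [Set.indicator_of_notMem fun h => hj (hZu x j i h hi), mul_zero]
    · simp
  have hw2 : ∀ g x, 0 ≤ w g x ∧ w g x ≤ 1 := by
    intro g x
    by_cases h : ∃ i, x ∈ Z i
    · obtain ⟨i, hi⟩ := h
      rw [hw1 g x i hi]
      exact h01 _
    · push Not at h
      simp [w, h]
  have hwm : ∀ g, Measurable (w g) := fun g =>
    Finset.measurable_sum _ fun i _ => (measurable_const.indicator (hZ i)).const_mul _
  let v : G → Lp ℝ 2 μ := fun g => ∑ i, f0 (g • p i) • e i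
  have hv : ∀ g, v g =ᵐ[μ] w g := by
    intro g
    have h1 : ∀ᵐ x ∂μ, ∀ i, (f0 (g • p i) • e i) x =
        f0 (g • p i) * (Z i).indicator (fun _ => (1 : ℝ)) x := by
      rw [eventually_all]
      intro i
      filter_upwards [Lp.coeFn_smul (f0 (g • p i)) (e i),
        indicatorConstLp_coeFn (p := 2) (hs := hZ i) (hμs := measure_ne_top μ _) (c := (1 : ℝ))]
        with x h1 h2
      rw [h1, Pi.smul_apply, smul_eq_mul]
      exact congrArg _ h2
    filter_upwards [h1, Lp.coeFn_finsetSum Finset.univ fun i => f0 (g • p i) • e i] with x h1 h2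
    rw [show v g x = _ from h2, Finset.sum_apply]
    exact Finset.sum_congr rfl fun i _ => h1 i
  refine ⟨Submodule.span ℝ (Set.range e), FiniteDimensional.span_of_finite ℝ (Set.finite_range e),
    v, (finrank_range_le_card e).trans (by simp), fun g => Submodule.sum_mem _ fun i _ =>
      Submodule.smul_mem _ _ (Submodule.subset_span (Set.mem_range_self i)), fun g => ?_, ?_⟩
  · refine norm_le_one_of_ae μ ((hv g).mono fun x hx => ?_)
    rw [hx, Real.norm_eq_abs, abs_of_nonneg (hw2 g x).1]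
    exact (hw2 g x).2
  have habs : ∀ g x, |f0 (g • x) - w g x| ≤ 1 := fun g x =>
    abs_le.mpr ⟨by linarith [(h01 (g • x)).1, (hw2 g x).2], by
      linarith [(h01 (g • x)).2, (hw2 g x).1]⟩
  have hsq : ∀ g x, (f0 (g • x) - w g x) ^ 2 ≤ |f0 (g • x) - w g x| := fun g x => by
    rw [← sq_abs]
    nlinarith [habs g x, abs_nonneg (f0 (g • x) - w g x)]
  have h1 : ∀ g, ‖koop μ g⁻¹ f - v g‖ ^ 2 = ∫ x, (f0 (g • x) - w g x) ^ 2 ∂μ := by
    intro g
    rw [norm_sq_eq]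
    refine integral_congr_ae ?_
    filter_upwards [Lp.coeFn_sub (koop μ g⁻¹ f) (v g), koop_ae μ g⁻¹ f, hv g,
      (measurePreserving_smul g μ).quasiMeasurePreserving.ae_eq_comp hf] with x h1 h2 h3 h4
    rw [h1, Pi.sub_apply, h2, h3, inv_inv]
    exact congrArg (fun t => (t - w g x) ^ 2) h4
  have hint : ∀ g, Integrable (fun x => (f0 (g • x) - w g x) ^ 2) μ := fun g =>
    Integrable.of_bound (((hm.comp (measurable_const_smul g)).sub (hwm g)).pow_const
      2).aestronglyMeasurable 1 (Eventually.of_forall fun x => by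
        rw [Real.norm_eq_abs, abs_of_nonneg (sq_nonneg _)]
        exact (hsq g x).trans (habs g x))
  simp only [h1]
  rw [← integral_finsetSum _ fun g _ => hint g, ← integral_div]
  have h2 : ∀ x, (∑ g ∈ S, (f0 (g • x) - w g x) ^ 2) / S.card ≤
      X₀.indicator (fun _ => (1 : ℝ)) x + δ := by
    intro x
    by_cases hx : x ∈ X₀
    · rw [Set.indicator_of_mem hx]
      refine le_trans ?_ (le_add_of_nonneg_right hδ.le)
      refine (le_abs_self _).trans (abs_avg_le _ _ _ zero_le_one fun g => ?_)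
      rw [abs_of_nonneg (sq_nonneg _)]
      exact (hsq g x).trans (habs g x)
    · rw [Set.indicator_of_notMem hx, zero_add]
      obtain ⟨i, hi⟩ := hZc x hx
      refine le_trans (div_le_div_of_nonneg_right (Finset.sum_le_sum fun g _ => ?_) hpos.le)
        (hdiam i x hi.1 (p i) (hp i x hi.1))
      refine (hsq g x).trans ?_
      rw [hw1 g x i hi]
      exact hlip _ _
  refine (integral_mono ((integrable_finsetSum _ fun g _ => hint g).div_const _)
    (((integrable_const (1 : ℝ)).indicator hX₀).add (integrable_const δ)) h2).trans ?_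
  simp only [Pi.add_apply]
  rw [integral_add ((integrable_const (1 : ℝ)).indicator hX₀) (integrable_const δ),
    integral_indicator_const _ hX₀]
  have h3 : μ.real X₀ ≤ δ := ENNReal.toReal_le_of_le_ofReal hδ.le hμ.le
  simp only [smul_eq_mul, mul_one, integral_const, probReal_univ, one_mul]
  linarith

theorem cover_of_lt_top {ρ : X → X → ℝ} {ε : ℝ} (hε : 0 < ε) {c : ℝ≥0∞}
    (h : epsEntropy μ ρ ε < c) :
    ∃ k : ℕ, 0 < k ∧ ENNReal.ofReal (Real.logb 2 k) < c ∧ ∃ (X₀ : Set X) (Y : Fin k → Set X),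
      MeasurableSet X₀ ∧ (∀ i, MeasurableSet (Y i)) ∧ X₀ ∪ ⋃ i, Y i = Set.univ ∧
      μ X₀ < ENNReal.ofReal ε ∧ ∀ i, ∀ x ∈ Y i, ∀ y ∈ Y i, ρ x y < ε := by
  simp only [epsEntropy, iInf_lt_iff] at h
  obtain ⟨k, ⟨hk, X₀, Y, h1, h2, h3, h4, h5⟩, hc⟩ := h
  refine ⟨k, hk, hc, X₀, Y, h1, h2, h3, h4, fun i x hx y hy => ?_⟩
  refine (ENNReal.ofReal_lt_ofReal_iff hε).mp (lt_of_le_of_lt ?_ (h5 i))
  exact le_iSup₂_of_le x hx (le_iSup₂_of_le y hy le_rfl)

theorem exists_witness [Countable G] {g0 : G} (hg0 : g0 ≠ 1) (hfree : EssFree G μ)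
    {ρ : X → X → ℝ} (hρ : IsGoodSemimetric G μ ρ) :
    ∃ (s : G) (y : X), ¬ ∀ᵐ x ∂μ, min 1 (ρ ((s * g0 * s⁻¹) • x) y) = min 1 (ρ x y) := by
  obtain ⟨hm, h0, hsymm, htri, -, hadm, X', hX', hgen⟩ := hρ
  by_contra hcon
  push Not at hcon
  have h1 : ∀ s : G, ∀ᵐ x ∂μ, ρ ((s * g0 * s⁻¹) • x) x = 0 := by
    intro s
    set g := s * g0 * s⁻¹
    have h2 : ∀ θ : ℝ, 0 < θ → μ {x | θ ≤ ρ (g • x) x} = 0 := by
      intro θ hθ
      refine le_antisymm (ENNReal.le_of_forall_pos_le_add fun η hη _ => ?_) zero_le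
      rw [zero_add]
      have hε : 0 < min (min 1 (θ / 2)) (η : ℝ) := by positivity
      obtain ⟨k, -, -, X₀, Y, -, -, hcov, hμ, hd⟩ := cover_of_lt_top μ hε (hadm _ hε)
      have hpt : ∀ i, ∀ᵐ x ∂μ, x ∈ Y i → ρ (g • x) x < θ := by
        intro i
        rcases (Y i).eq_empty_or_nonempty with h | ⟨y, hy⟩
        · simp [h]
        filter_upwards [hcon s y] with x hx hxi
        have h3 := hd i x hxi y hy
        simp only [lt_min_iff] at h3
        rw [min_eq_right h3.1.1.le] at hx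
        have h4 : ρ (g • x) y = ρ x y := by
          rcases min_choice 1 (ρ (g • x) y) with h | h
          · rw [h] at hx; linarith [h3.1.1]
          · rwa [h] at hx
        have := htri (g • x) y x
        rw [h4, hsymm y x] at this
        linarith [h3.1.2]
      rw [← eventually_all] at hpt
      refine (measure_mono_ae (t := X₀) ?_).trans (hμ.le.trans ?_)
      · filter_upwards [hpt] with x hx hθx
        have h3 : x ∈ X₀ ∪ ⋃ i, Y i := hcov ▸ Set.mem_univ x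
        refine h3.resolve_right fun h => ?_
        obtain ⟨i, hi⟩ := Set.mem_iUnion.mp h
        exact absurd (hx i hi) (not_lt.mpr hθx)
      · rw [← ENNReal.ofReal_coe_nnreal]
        exact ENNReal.ofReal_le_ofReal (min_le_right _ _)
    have h3 : ∀ᵐ x ∂μ, ∀ j : ℕ, ¬ 1 / ((j : ℝ) + 1) ≤ ρ (g • x) x := by
      rw [ae_all_iff]
      intro j
      rw [ae_iff]
      simpa using h2 _ (Nat.one_div_pos_of_nat (n := j))
    filter_upwards [h3] with x hx
    by_contra hne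
    obtain ⟨j, hj⟩ := exists_nat_one_div_lt (lt_of_le_of_ne (h0 _ _) (Ne.symm hne))
    exact hx j hj.le
  have h2 : ∀ᵐ x ∂μ, ∀ s : G, ρ (s • g0 • x) (s • x) = 0 := by
    rw [ae_all_iff]
    intro s
    filter_upwards [(measurePreserving_smul s μ).quasiMeasurePreserving.ae (h1 s)] with x hx
    simpa [mul_smul] using hx
  have h3 : ∀ᵐ x ∂μ, x ∈ X' := hX'
  obtain ⟨x, hx1, hx2, hx3, hx4⟩ := (h2.and (h3.and
    (((measurePreserving_smul g0 μ).quasiMeasurePreserving.ae h3).and hfree))).exists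
  obtain ⟨s, hs⟩ := hgen _ hx3 _ hx2 fun h => hg0 (hx4 g0 h)
  exact hs (hx1 s)

theorem main (G : Type) [Group G] [Countable G] [DecidableEq G] (F : ℕ → Finset G)
    (hF : IsFolner F)
    (hno : ∀ (X : Type) [MeasurableSpace X] [StandardBorelSpace X] (μ : Measure X)
      [IsProbabilityMeasure μ] [MulAction G X] [MeasurableConstSMul G X]
      [SMulInvariantMeasure G X μ], EssFree G μ → ¬ IsCompactAction G μ) :
    ∃ φ : ℕ → ℝ≥0, Tendsto φ atTop atTop ∧
      ∀ (X : Type) [MeasurableSpace X] [StandardBorelSpace X] (μ : Measure X)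
        [IsProbabilityMeasure μ] [MulAction G X] [MeasurableConstSMul G X]
        [SMulInvariantMeasure G X μ], EssFree G μ → ∀ ρ : X → X → ℝ, IsGoodSemimetric G μ ρ →
          Precsim (fun n _ => (φ n : ℝ≥0∞)) (Phi μ F ρ) := by
  classical
  obtain ⟨g0, hg0, hker⟩ := exists_inKer hno
  obtain ⟨e, he⟩ := exists_surjective_nat G
  let C : G → ℕ → ℝ → ℕ → Prop := fun g k ε n =>
    ∀ (H : Type) [NormedAddCommGroup H] [InnerProductSpace ℝ H]
      (π : G →* (H →ₗᵢ[ℝ] H)) (f : H) (V : Submodule ℝ H) [FiniteDimensional ℝ V] (v : G → H),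
      Module.finrank ℝ V ≤ k → ‖f‖ ≤ 1 → (∀ g, v g ∈ V) → (∀ g, ‖v g‖ ≤ 1) →
      (∑ g ∈ F n, ‖π g⁻¹ f - v g‖ ^ 2) / (F n).card ≤ ε ^ 2 → ‖π g f - f‖ ≤ 5 * ε
  let Q : ℕ → ℕ → Prop := fun n m => ∀ i ∈ Finset.range m, ∀ j ∈ Finset.range m,
    C (e i * g0 * (e i)⁻¹)⁻¹ (2 ^ m) (1 / ((j : ℝ) + 1)) n
  have hQ : ∀ m, ∀ᶠ n in atTop, Q n m := by
    intro m
    simp only [Q, eventually_all_finset]
    exact fun i _ j _ => core hF (hker.conj _).inv _ Nat.one_div_pos_of_nat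
  let ψ : ℕ → ℕ := fun n => Nat.findGreatest (Q n) n
  have hψ : Tendsto ψ atTop atTop := by
    rw [tendsto_atTop]
    intro m
    filter_upwards [hQ m, eventually_ge_atTop m] with n h1 h2
    exact Nat.le_findGreatest h2 h1
  have hψQ : ∀ n, Q n (ψ n) := fun n =>
    Nat.findGreatest_spec (P := Q n) (Nat.zero_le n) (by simp [Q])
  refine ⟨fun n => ψ n, tendsto_natCast_atTop_atTop.comp hψ, ?_⟩
  intro X _ _ μ _ _ _ _ hfree ρ hρ ε _
  obtain ⟨s, y, hsy⟩ := exists_witness μ hg0 hfree hρ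
  obtain ⟨hm, h0, hsymm, htri, -⟩ := hρ
  obtain ⟨i, rfl⟩ := he s
  let f0 : X → ℝ := fun x => min 1 (ρ x y)
  have hf0 : Measurable f0 := measurable_const.min (hm.comp measurable_prodMk_right)
  have h01 : ∀ x, 0 ≤ f0 x ∧ f0 x ≤ 1 := fun x => ⟨le_min zero_le_one (h0 _ _), min_le_left _ _⟩
  have hlip : ∀ x x', |f0 x - f0 x'| ≤ ρ x x' := by
    intro x x'
    refine (abs_min_sub_min_le_max _ _ _ _).trans (max_le (by simpa using h0 x x') ?_)
    have := htri x x' y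
    have := htri x' x y
    rw [hsymm x' x] at this
    exact abs_le.mpr ⟨by linarith, by linarith⟩
  have hb : ∀ᵐ x ∂μ, ‖f0 x‖ ≤ 1 := Eventually.of_forall fun x => by
    rw [Real.norm_eq_abs, abs_of_nonneg (h01 x).1]; exact (h01 x).2
  have hmem : MemLp f0 2 μ := MemLp.of_bound hf0.aestronglyMeasurable 1 hb
  let f : Lp ℝ 2 μ := hmem.toLp f0
  have hf : f =ᵐ[μ] f0 := hmem.coeFn_toLp
  have hf1 : ‖f‖ ≤ 1 := norm_le_one_of_ae μ (by filter_upwards [hf, hb] with x h1 h2; rwa [h1])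
  set g := e i * g0 * (e i)⁻¹ with hg
  have hc : 0 < ‖koop μ g⁻¹ f - f‖ := by
    rw [norm_pos_iff, sub_ne_zero]
    intro h
    apply hsy
    have h1 := koop_ae μ g⁻¹ f
    rw [h, inv_inv] at h1
    filter_upwards [h1, hf, (measurePreserving_smul g μ).quasiMeasurePreserving.ae_eq_comp hf]
      with x h1 h2 h3
    exact (h3.symm.trans h1.symm).trans h2
  obtain ⟨j, hj⟩ := exists_nat_one_div_lt (show 0 < ‖koop μ g⁻¹ f - f‖ / 5 by positivity)
  have hδ : 0 < (1 / ((j : ℝ) + 1)) ^ 2 / 2 := by positivity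
  refine ⟨_, hδ, lt_of_le_of_lt (limsup_le_of_le (a := 1) ?_ ?_) ENNReal.one_lt_top⟩
  · isBoundedDefault
  filter_upwards [hψ.eventually (eventually_gt_atTop i), hψ.eventually (eventually_gt_atTop j)]
    with n hi hj'
  refine ENNReal.div_le_of_le_mul ?_
  rw [one_mul]
  by_contra hlt
  obtain ⟨k, hk, hlog, X₀, Y, h1, h2, h3, h4, h5⟩ := cover_of_lt_top μ hδ (not_le.mp hlt)
  have hk2 : k ≤ 2 ^ ψ n := by
    rw [ENNReal.coe_natCast, ← ENNReal.ofReal_natCast] at hlog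
    have h6 := ((ENNReal.ofReal_lt_ofReal_iff'.mp hlog).1).le
    rw [Real.logb_le_iff_le_rpow (by norm_num) (by exact_mod_cast hk), Real.rpow_natCast] at h6
    exact_mod_cast h6
  obtain ⟨V, _, v, hV, hv, hv1, happ⟩ := cover_data μ f0 hf0 h01 f hf ρ hlip (hF.1 n) hδ X₀ Y h1 h2
    h3 h4 fun l x hx x' hx' => (h5 l x hx x' hx').le
  have := hψQ n i (Finset.mem_range.mpr hi) j (Finset.mem_range.mpr hj') _ (koop μ) f V v
    (hV.trans hk2) hf1 hv hv1 (by linarith)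
  linarith

end Pool.Agent.P.MP_0c3bbf_an
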